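import Pool.Agent.H999R3.Tm.Asm

namespace Pool.Agent.Results.MP_e98a5c_gt.TightNotPerfect

open Pool.Agent.H999R3.Tm

/-- There is a tight simplicial 7-manifold none of whose iterated barycentric subdivisions is
perfect. The case k = 5 = 7 - 2 disproves the statement asked about. -/
theorem result : ∃ C : Cplx, C.IsManifold 7 ∧ C.Tight ∧ ∀ k : ℕ, ¬ (Cplx.sd^[k] C).Perfect :=
  main7

end Pool.Agent.Results.MP_e98a5c_gt.TightNotPerfect
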